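import Pool.Agent.Helper42.PW.Goals5
import Pool.Agent.Helper58.PP.DTAM
import Pool.Agent.Helper22.PP.DPRD
import Pool.Agent.Helper77.PPL.DUNR
import Pool.Agent.Helper63.PP.DNLS
import Pool.Agent.Helper95.PP.DCMP
import Pool.Agent.Helper85.PP.DCND
import Pool.Agent.Helper15.PP.DTAU

/-!
# Project W (MP_fc6b1e_nt), packet W-W_RAM: the product of the norms of the ramified primes is a weight function
-/

set_option autoImplicit false

namespace Pool.Agent.Helper51.PW

open NumberField Polynomial Module IsDedekindDomain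
open Pool.Agent.Helper51.RP Pool.Agent.Helper42.RD Pool.Agent.Helper42.PP Pool.Agent.Helper42.PW
open Pool.Agent.Helper11.PP Pool.Agent.Helper11.LE
open Pool.Agent.Helper79.PP (clp_mul clp_eq_one)
open Pool.Agent.Helper95.PP (ram_finite norm_pos om_div)
open Pool.Agent.Helper85.PP (valC_iff)
open Pool.Agent.Helper40.RS (bel)

theorem val_lt_iff {F : Type} [Field F] [NumberField F] (p : ℕ) (v : HeightOneSpectrum (𝓞 F)) :
    v.valuation F (p : F) < 1 ↔ (p : 𝓞 F) ∈ v.asIdeal := by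
  rw [← v.valuation_lt_one_iff_mem (K := F)]
  simp

theorem bel_mem {K F : Type} [Field K] [NumberField K] [Field F] [NumberField F] [Algebra K F]
    (p : ℕ) (W : HeightOneSpectrum (𝓞 F)) :
    (p : 𝓞 F) ∈ W.asIdeal ↔ (p : 𝓞 K) ∈ (bel K W).asIdeal := by
  have h : (p : 𝓞 K) ∈ W.asIdeal.comap (algebraMap (𝓞 K) (𝓞 F)) ↔ (p : 𝓞 F) ∈ W.asIdeal := by
    rw [Ideal.mem_comap, map_natCast]
  exact h.symm

theorem w_ram : W_RAM := by
  intro p hpF K K₁ _ _ _ _ _ ε hC j hj nf hnf hA Sp hSp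
  classical
  have hp : p.Prime := hpF.out
  have hpne : NeZero p := ⟨hp.ne_zero⟩
  have hSp' : ∀ v : HeightOneSpectrum (𝓞 K), v ∈ Sp ↔ (p : 𝓞 K) ∈ v.asIdeal := fun v =>
    (hSp v).trans (val_lt_iff p v)
  have hsub : {W : HeightOneSpectrum (𝓞 K₁) | (p : 𝓞 K₁) ∈ W.asIdeal} ⊆ up K₁ Sp := by
    intro W hW
    exact ⟨bel K W, (hSp' _).2 ((bel_mem p W).1 hW), rfl⟩
  set gz := Pool.Agent.Helper15.PP.gZ p (up K₁ Sp) with hgz
  have hnum : ∀ N ∈ CycN p K, NumberField N := by
    intro N hN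
    have : FiniteDimensional K N := by
      apply Module.finite_of_finrank_pos
      rw [hN.1]
      exact hp.pos
    exact NumberField.of_module_finite K N
  have hcl : ∀ a b : K₁ˣ, clp p a = clp p b → LocS p (up K₁ Sp) (a / b) := by
    intro a b hab
    have e := QuotientGroup.eq.1 hab
    obtain ⟨y, hy⟩ := e
    have hy' : y ^ p = a⁻¹ * b := hy
    refine ⟨y, fun w _ => ?_⟩
    have e2 : ((a / b : K₁ˣ) : K₁) * (y : K₁) ^ p = 1 := by
      have e3 : (a / b) * y ^ p = 1 := by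
        rw [hy']
        rw [div_eq_mul_inv, mul_assoc, mul_comm b⁻¹, mul_assoc, mul_inv_cancel, mul_one,
          mul_inv_cancel]
      have := congrArg (fun u : K₁ˣ => (u : K₁)) e3
      simpa using this
    rw [e2, sub_self, map_zero]
    exact ⟨zero_lt_one, zero_le⟩
  -- equivalence of classes
  let Eqv : ClP p K₁ → ClP p K₁ → Prop := fun c c' => ∃ a a' : K₁ˣ, OmType p K ε (a : K₁) ∧
    OmType p K ε (a' : K₁) ∧ clp p a = c ∧ clp p a' = c' ∧ LocS p (up K₁ Sp) (a / a')
  let R : ClP p K₁ → HeightOneSpectrum (𝓞 K) → Prop := fun c v =>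
    ∃ c' ∈ BSet p K ε, Eqv c c' ∧ RamIn (nf c') v
  have hR : ∀ a a' : K₁ˣ, OmType p K ε (a : K₁) → OmType p K ε (a' : K₁) →
      LocS p (up K₁ Sp) (a / a') → ∀ v, R (clp p a) v → R (clp p a') v := by
    rintro a a' ha ha' hl v ⟨c', hc', ⟨b, b', hb, hb', hbc, hbc', hbl⟩, hr⟩
    refine ⟨c', hc', ⟨a', b', ha', hb', rfl, hbc', ?_⟩, hr⟩
    have e1 : a' / b' = (a / a')⁻¹ * (a / b) * (b / b') := by
      rw [inv_div, div_mul_div_cancel, div_mul_div_cancel]
    have e2 : a / b ∈ gz := hcl a b hbc.symm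
    have e3 : a' / b' ∈ gz := by
      rw [e1]
      exact gz.mul_mem (gz.mul_mem (gz.inv_mem hl) e2) hbl
    exact e3
  let e : ClP p K₁ → ℕ := fun c => ∏ v ∈ Sp.filter (R c), Ideal.absNorm v.asIdeal
  refine ⟨fun c => condS K Sp c * e c, ⟨e, fun c => Finset.one_le_prod' fun v _ => norm_pos v,
    ?_, fun c => rfl⟩, ?_⟩
  · intro a a' ha ha' hl
    have hl' : LocS p (up K₁ Sp) (a' / a) := by
      have h1 : (a / a')⁻¹ ∈ gz := gz.inv_mem hl
      rw [inv_div] at h1
      exact h1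
    show ∏ v ∈ Sp.filter (R (clp p a)), Ideal.absNorm v.asIdeal =
      ∏ v ∈ Sp.filter (R (clp p a')), Ideal.absNorm v.asIdeal
    congr 1
    ext v
    rw [Finset.mem_filter, Finset.mem_filter]
    exact and_congr_right fun _ => ⟨hR a a' ha ha' hl v, hR a' a ha' ha hl' v⟩
  · intro c hc
    obtain ⟨hN, hg⟩ := hnf c hc
    have hnN := hnum _ hN
    obtain ⟨hc1, a, hac, hom⟩ := id hc
    have hna : ¬ Pw p a := by
      rw [← clp_eq_one, hac]
      exact hc1
    -- outside `p`
    have h1 : ∀ v : HeightOneSpectrum (𝓞 K), v ∉ Sp → (RamIn (nf c) v ↔ ValC c v) := by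
      intro v hv
      have hv' : (p : 𝓞 K) ∉ v.asIdeal := fun h => hv ((hSp' v).2 h)
      rw [Pool.Agent.Helper58.PP.d_tam p K K₁ ε hC j hj _ hN a hna (hg a hac) v hv', ← hac,
        valC_iff]
    -- above `p`
    have h2 : ∀ v : HeightOneSpectrum (𝓞 K), v ∈ Sp → (RamIn (nf c) v ↔ R c v) := by
      intro v hv
      have hv' : (p : 𝓞 K) ∈ v.asIdeal := (hSp' v).1 hv
      constructor
      · intro hr
        refine ⟨c, hc, ⟨a, a, hom, hom, hac, hac, ?_⟩, hr⟩
        have h3 : a / a ∈ gz := by rw [div_self']; exact gz.one_mem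
        exact h3
      · rintro ⟨c', hc', ⟨a₁, a', ha₁, ha', hac₁, hac', hl⟩, hr⟩
        have hna₁ : ¬ Pw p a₁ := by
          rw [← clp_eq_one, hac₁]
          exact hc1
        have hna' : ¬ Pw p a' := by
          rw [← clp_eq_one, hac']
          exact hc'.1
        by_cases hpw : Pw p (a' / a₁)
        · have h3 : c' = c := by
            obtain ⟨y, hy⟩ := hpw
            rw [← hac', ← hac₁]
            refine (Pool.Agent.Helper79.PP.clp_eq.2 ⟨y, ?_⟩).symm
            rw [← hy, mul_div_cancel]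
          rw [← h3]
          exact hr
        · have hbo : OmType p K ε ((a' / a₁ : K₁ˣ) : K₁) := by
            rw [Units.val_div_eq_div_val]
            exact om_div hp hC.prim a₁.ne_zero ha' ha₁
          have hbB : clp p (a' / a₁) ∈ BSet p K ε :=
            ⟨fun h => hpw (clp_eq_one.1 h), _, rfl, hbo⟩
          have hbn : NiceU p (a' / a₁) := by
            refine (Pool.Agent.Helper63.PP.d_nls p K₁ (a' / a₁)).2 ?_
            have h3 : (a₁ / a')⁻¹ ∈ gz := gz.inv_mem hl
            rw [inv_div] at h3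
            obtain ⟨y, hy⟩ := h3
            exact ⟨y, fun w hw => hy w (hsub hw)⟩
          have hbA : clp p (a' / a₁) ∈ ASet p K ε :=
            ⟨hbB.1, _, rfl, hbo, hbn⟩
          have hbF := (hA _ hbB).1 hbA
          obtain ⟨g1, g2⟩ := hnf _ hbB
          obtain ⟨g3, g4⟩ := hnf _ hc'
          have hmul : a' / a₁ * a₁ = a' := div_mul_cancel _ _
          rcases Pool.Agent.Helper22.PP.d_prd p K K₁ ε hC j hj _ g1 _ hN _ g3 (a' / a₁) a₁
            (by rw [hmul]; exact hna') (g2 _ rfl) (hg _ hac₁)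
            (by rw [hmul]; exact g4 _ hac') v hr with h5 | h5
          · exact absurd h5 (Pool.Agent.Helper77.PPL.d_unr p K _ g1 v (hbF.2.2 v hv'))
          · exact h5
    have hfin : {v : HeightOneSpectrum (𝓞 K) | ValC c v ∧ v ∉ Sp}.Finite :=
      (ram_finite K (nf c)).subset fun v hv => (h1 v hv.2).2 hv.1
    have hset : {v : HeightOneSpectrum (𝓞 K) | RamIn (nf c) v} =
        {v | ValC c v ∧ v ∉ Sp} ∪ ((Sp.filter (R c) : Finset _) : Set _) := by
      ext v
      simp only [Set.mem_ofPred_eq, Set.mem_union, Finset.coe_filter]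
      by_cases hv : v ∈ Sp
      · exact (h2 v hv).trans ⟨fun h => Or.inr ⟨hv, h⟩, fun h => h.elim (fun h => absurd hv h.2) And.right⟩
      · exact (h1 v hv).trans ⟨fun h => Or.inl ⟨h, hv⟩, fun h => h.elim And.left (fun h => absurd h.1 hv)⟩
    have hdisj : Disjoint {v : HeightOneSpectrum (𝓞 K) | ValC c v ∧ v ∉ Sp}
        ((Sp.filter (R c) : Finset _) : Set _) := by
      rw [Set.disjoint_left]
      rintro v ⟨-, hv⟩ hv'
      rw [Finset.mem_coe, Finset.mem_filter] at hv'
      exact hv hv'.1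
    have e1 : cond K (nf c) =
        ∏ᶠ v ∈ {v : HeightOneSpectrum (𝓞 K) | RamIn (nf c) v}, Ideal.absNorm v.asIdeal := rfl
    have e2 : condS K Sp c =
        ∏ᶠ v ∈ {v : HeightOneSpectrum (𝓞 K) | ValC c v ∧ v ∉ Sp}, Ideal.absNorm v.asIdeal := rfl
    show condS K Sp c * e c = cond K (nf c)
    rw [e1, e2, hset, finprod_mem_union hdisj hfin (Finset.finite_toSet _), finprod_mem_coe_finset]

end Pool.Agent.Helper51.PW
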